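import Mathlib

/-!
# `I + T` is topologically multiply recurrent for every unilateral weighted shift `T`

Let `T` be a bounded operator on a normed space for which the vectors `x₀` with `T ^ m x₀ = 0` for
some `m` and `x₀ ∈ T ^ M X` for all `M` are dense. For such an `x₀`, and `T ^ M y = x₀`,
`M = N (m + 1)`, we put `x = x₀ + ∑_{r = 1}^{M} c_r k ^ (-r) T ^ (M - r) y`, where the bounded numbers
`c_r` are chosen by an interpolation problem (it is solvable as a polynomial of degree at most
`M + m` with zeros of order `m + 1` at `0, 1, …, N` is `0`) such that the terms `T ^ s x₀`, `s ≥ 1`,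
in `(I + T) ^ (j k) x`, `1 ≤ j ≤ N`, cancel. Then `(I + T) ^ (j k) x` tends to `x₀` for
`0 ≤ j ≤ N` as `k → ∞`.
-/

set_option autoImplicit false

open Filter Topology Polynomial
open scoped ENNReal

namespace Pool.Agent.Results.MP_a8995d_an.IdentityPlusShift

/-- `S` is topologically multiply recurrent. -/
def MultiplyRecurrent {X : Type} [NormedAddCommGroup X] [NormedSpace ℂ X] (S : X →L[ℂ] X) : Prop :=
  ∀ U : Set X, IsOpen U → U.Nonempty → ∀ N : ℕ, 1 ≤ N → ∃ k : ℕ, 1 ≤ k ∧
    ∃ x ∈ U, ∀ j : ℕ, 1 ≤ j → j ≤ N → (S ^ (j * k)) x ∈ U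

/-- `T` is the unilateral weighted (backward) shift with the weights `w` with respect to the
orthonormal basis `e` of the Hilbert space `H`: `T e_0 = 0` and `T e_n = w_n e_{n - 1}` for
`n ≥ 1`. -/
def IsWeightedShift {H : Type} [NormedAddCommGroup H] [InnerProductSpace ℂ H]
    (e : HilbertBasis ℕ ℂ H) (w : ℕ → ℝ) (T : H →L[ℂ] H) : Prop :=
  T (e 0) = 0 ∧ ∀ n : ℕ, 1 ≤ n → T (e n) = (w n : ℂ) • e (n - 1)

section matrix

variable {ι : Type} [Fintype ι] [DecidableEq ι]

lemma inv_tendsto {A : ℕ → Matrix ι ι ℂ} {B : Matrix ι ι ℂ} (h : Tendsto A atTop (𝓝 B))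
    (hd : B.det ≠ 0) : Tendsto (fun k => (A k)⁻¹) atTop (𝓝 B⁻¹) := by
  have h1 : Tendsto (fun k => (A k).det) atTop (𝓝 B.det) :=
    ((continuous_id.matrix_det).tendsto B).comp h
  have h4 : Tendsto (fun k => (A k).adjugate) atTop (𝓝 B.adjugate) :=
    ((continuous_id.matrix_adjugate).tendsto B).comp h
  simp only [Matrix.inv_def, Ring.inverse_eq_inv']
  exact (h1.inv₀ hd).smul h4

lemma mulVec_tendsto {A : ℕ → Matrix ι ι ℂ} {B : Matrix ι ι ℂ} (h : Tendsto A atTop (𝓝 B))
    {u : ℕ → ι → ℂ} {v : ι → ℂ} (h' : Tendsto u atTop (𝓝 v)) :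
    Tendsto (fun k => (A k).mulVec (u k)) atTop (𝓝 (B.mulVec v)) := by
  refine tendsto_pi_nhds.2 fun i => ?_
  have h1 : ∀ j, Tendsto (fun k => A k i j) atTop (𝓝 (B i j)) := fun j =>
    tendsto_pi_nhds.1 (tendsto_pi_nhds.1 h i) j
  have h2 : ∀ j, Tendsto (fun k => u k j) atTop (𝓝 (v j)) := fun j => tendsto_pi_nhds.1 h' j
  have h3 : Tendsto (fun k => ∑ j, A k i j * u k j) atTop (𝓝 (∑ j, B i j * v j)) :=
    tendsto_finsetSum _ fun j _ => (h1 j).mul (h2 j)
  exact h3

lemma solve {A : ℕ → Matrix ι ι ℂ} {B : Matrix ι ι ℂ} (h : Tendsto A atTop (𝓝 B))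
    (hd : B.det ≠ 0) (u : ℕ → ι → ℂ) :
    ∀ᶠ k in atTop, (A k).mulVec ((A k)⁻¹.mulVec (u k)) = u k := by
  have h1 : Tendsto (fun k => (A k).det) atTop (𝓝 B.det) :=
    ((continuous_id.matrix_det).tendsto B).comp h
  filter_upwards [h1.eventually_ne hd] with k hk
  rw [Matrix.mulVec_mulVec, Matrix.mul_nonsing_inv _ (isUnit_iff_ne_zero.2 hk),
    Matrix.one_mulVec]

end matrix

section algebra

/-- Binomial coefficients and powers. -/
lemma choose_tendsto (j q : ℕ) (hj : 1 ≤ j) :
    Tendsto (fun k : ℕ => ((Nat.choose (j * k) q : ℕ) : ℂ) / (k : ℂ) ^ q) atTop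
      (𝓝 ((j : ℂ) ^ q / (q.factorial : ℂ))) := by
  have h1 : ∀ i : ℕ, Tendsto (fun k : ℕ => (((j * k - i : ℕ)) : ℂ) / (k : ℂ)) atTop
      (𝓝 (j : ℂ)) := by
    intro i
    have h2 : Tendsto (fun k : ℕ => (j : ℂ) - (i : ℂ) / (k : ℂ)) atTop (𝓝 ((j : ℂ) - 0)) :=
      tendsto_const_nhds.sub (tendsto_const_div_atTop_nhds_zero_nat (i : ℂ))
    rw [sub_zero] at h2
    refine h2.congr' ?_
    filter_upwards [eventually_ge_atTop (i + 1)] with k hk
    have h3 : i ≤ j * k := by nlinarith
    have h4 : (k : ℂ) ≠ 0 := by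
      have : k ≠ 0 := by omega
      exact_mod_cast this
    rw [Nat.cast_sub h3]
    push_cast
    field_simp
  have h5 : Tendsto (fun k : ℕ => ∏ i ∈ Finset.range q, ((((j * k - i : ℕ)) : ℂ) / (k : ℂ))) atTop
      (𝓝 (∏ _i ∈ Finset.range q, (j : ℂ))) := tendsto_finsetProd _ fun i _ => h1 i
  rw [Finset.prod_const, Finset.card_range] at h5
  have h6 := h5.div_const (q.factorial : ℂ)
  refine h6.congr fun k => ?_
  have h7 : (q.factorial : ℂ) ≠ 0 := by exact_mod_cast q.factorial_ne_zero
  have h8 : ((j * k).descFactorial q : ℂ) = q.factorial * ((j * k).choose q : ℂ) := by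
    exact_mod_cast Nat.descFactorial_eq_factorial_mul_choose (j * k) q
  rw [Finset.prod_div_distrib, Finset.prod_const, Finset.card_range, ← Nat.cast_prod,
    ← Nat.descFactorial_eq_prod_range, h8]
  field_simp

variable (N m : ℕ)

/-- The columns are numbered from `1` to `N (m + 1)`. -/
def col (c : Fin N × Fin (m + 1)) : ℕ := (finProdFinEquiv c : Fin (N * (m + 1))).val + 1

lemma col_pos (c : Fin N × Fin (m + 1)) : 1 ≤ col N m c := Nat.le_add_left _ _

lemma col_le (c : Fin N × Fin (m + 1)) : col N m c ≤ N * (m + 1) :=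
  (finProdFinEquiv c : Fin (N * (m + 1))).isLt

lemma col_inj : Function.Injective (col N m) := by
  intro a b h
  have : (finProdFinEquiv a : Fin (N * (m + 1))).val = (finProdFinEquiv b).val := by
    unfold col at h; omega
  exact finProdFinEquiv.injective (Fin.ext this)

/-- The matrix of the system for `k`. -/
noncomputable def Gk (k : ℕ) : Matrix (Fin N × Fin (m + 1)) (Fin N × Fin (m + 1)) ℂ :=
  fun i c => ((Nat.choose ((i.1.val + 1) * k) (col N m c + i.2.val) : ℕ) : ℂ) /
    (k : ℂ) ^ (col N m c + i.2.val)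

/-- The limit of the matrices. -/
noncomputable def G : Matrix (Fin N × Fin (m + 1)) (Fin N × Fin (m + 1)) ℂ :=
  fun i c => (((i.1.val + 1 : ℕ)) : ℂ) ^ (col N m c + i.2.val) /
    ((col N m c + i.2.val).factorial : ℂ)

/-- The right hand sides. -/
noncomputable def bk (k : ℕ) : Fin N × Fin (m + 1) → ℂ :=
  fun i => ((if i.2.val = 0 then 1 else 0) -
    ((Nat.choose ((i.1.val + 1) * k) i.2.val : ℕ) : ℂ)) / (k : ℂ) ^ i.2.val

/-- The limit of the right hand sides. -/
noncomputable def b : Fin N × Fin (m + 1) → ℂ :=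
  fun i => if i.2.val = 0 then 0 else
    - ((((i.1.val + 1 : ℕ)) : ℂ) ^ i.2.val / (i.2.val.factorial : ℂ))

lemma Gk_tendsto : Tendsto (Gk N m) atTop (𝓝 (G N m)) := by
  refine tendsto_pi_nhds.2 fun i => tendsto_pi_nhds.2 fun c => ?_
  exact choose_tendsto (i.1.val + 1) (col N m c + i.2.val) (Nat.le_add_left _ _)

lemma bk_tendsto : Tendsto (bk N m) atTop (𝓝 (b N m)) := by
  rw [tendsto_pi_nhds]
  intro i
  unfold bk b
  by_cases h : i.2.val = 0
  · simp [h]
  · simp only [if_neg h]
    have := (choose_tendsto (i.1.val + 1) i.2.val (Nat.le_add_left _ _)).neg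
    refine this.congr fun k => ?_
    ring

/-- The polynomial of the interpolation problem. -/
noncomputable def P (v : Fin N × Fin (m + 1) → ℂ) : ℂ[X] :=
  ∑ c, C (v c / ((col N m c + m).factorial : ℂ)) * X ^ (col N m c + m)

lemma P_natDegree (v : Fin N × Fin (m + 1) → ℂ) : (P N m v).natDegree ≤ N * (m + 1) + m := by
  refine natDegree_sum_le_of_forall_le _ _ fun c _ => ?_
  refine (natDegree_C_mul_X_pow_le _ _).trans ?_
  have := col_le N m c
  omega

lemma P_deriv (v : Fin N × Fin (m + 1) → ℂ) (s : ℕ) (hs : s ≤ m) (t : ℂ) :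
    (derivative^[m - s] (P N m v)).eval t =
      ∑ c, v c * (t ^ (col N m c + s) / ((col N m c + s).factorial : ℂ)) := by
  unfold P
  rw [iterate_derivative_sum, eval_finsetSum]
  refine Finset.sum_congr rfl fun c _ => ?_
  rw [iterate_derivative_C_mul, iterate_derivative_X_pow_eq_smul]
  have h1 : col N m c + m - (m - s) = col N m c + s := by omega
  have h2 : (col N m c + m).descFactorial (m - s) * (col N m c + s).factorial =
      (col N m c + m).factorial := by
    have h3 := Nat.factorial_mul_descFactorial (n := col N m c + m) (k := m - s) (by omega)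
    rw [h1] at h3
    rw [mul_comm]
    exact h3
  have h4 : (((col N m c + m).factorial : ℕ) : ℂ) =
      ((col N m c + m).descFactorial (m - s) : ℂ) * ((col N m c + s).factorial : ℂ) := by
    exact_mod_cast h2.symm
  have h5 : ((col N m c + s).factorial : ℂ) ≠ 0 := by exact_mod_cast Nat.factorial_ne_zero _
  have h6 : (((col N m c + m).factorial : ℕ) : ℂ) ≠ 0 := by
    exact_mod_cast Nat.factorial_ne_zero _
  have h7 : ((col N m c + m).descFactorial (m - s) : ℂ) ≠ 0 := by
    intro h8
    rw [h8, zero_mul] at h4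
    exact h6 h4
  rw [h1, h4]
  simp only [eval_mul, eval_C, eval_smul, smul_eq_mul, eval_pow, eval_X]
  field_simp

/-- The limit matrix is invertible. -/
lemma det_G : (G N m).det ≠ 0 := by
  intro h0
  obtain ⟨v, hv, hG⟩ := Matrix.exists_mulVec_eq_zero_iff.2 h0
  have hP : P N m v = 0 := by
    by_contra hP
    have h1 : ∀ j ∈ Finset.range N, ((X - C ((j + 1 : ℕ) : ℂ)) ^ (m + 1)) ∣ P N m v := by
      intro j hj
      rw [Finset.mem_range] at hj
      rw [← le_rootMultiplicity_iff hP]
      refine Nat.succ_le_of_lt ?_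
      rw [lt_rootMultiplicity_iff_isRoot_iterate_derivative hP]
      intro s hs
      have h2 := P_deriv N m v (m - s) (Nat.sub_le _ _) ((j + 1 : ℕ) : ℂ)
      rw [Nat.sub_sub_self hs] at h2
      rw [IsRoot, h2]
      have h3 := congrFun hG (⟨j, hj⟩, ⟨m - s, by omega⟩)
      simp only [Matrix.mulVec, dotProduct, Pi.zero_apply, G] at h3
      rw [← h3]
      refine Finset.sum_congr rfl fun c _ => ?_
      ring
    have h2 : (X : ℂ[X]) ^ (m + 1) ∣ P N m v := by
      unfold P
      refine Finset.dvd_sum fun c _ => ?_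
      refine Dvd.dvd.mul_left (pow_dvd_pow _ ?_) _
      have := col_pos N m c
      omega
    have h3 : (∏ j ∈ Finset.range (N + 1), (X - C ((j : ℕ) : ℂ)) ^ (m + 1)) ∣ P N m v := by
      refine Finset.prod_dvd_of_coprime (fun i _ j _ hij => ?_) fun j hj => ?_
      · refine IsCoprime.pow ?_
        apply isCoprime_X_sub_C_of_isUnit_sub
        rw [isUnit_iff_ne_zero, sub_ne_zero]
        exact_mod_cast hij
      · rcases Nat.eq_zero_or_pos j with h | h
        · subst h
          simpa using h2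
        · have := h1 (j - 1) (by rw [Finset.mem_range] at hj ⊢; omega)
          rwa [Nat.sub_add_cancel h] at this
    have h4 := natDegree_le_of_dvd h3 hP
    rw [natDegree_prod _ _ (fun j _ => pow_ne_zero _ (X_sub_C_ne_zero _))] at h4
    simp only [natDegree_pow, natDegree_X_sub_C, mul_one, Finset.sum_const, Finset.card_range,
      smul_eq_mul] at h4
    have h5 := P_natDegree N m v
    nlinarith
  apply hv
  funext c
  have h1 : (P N m v).coeff (col N m c + m) = 0 := by rw [hP, coeff_zero]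
  unfold P at h1
  rw [finsetSum_coeff] at h1
  simp only [coeff_C_mul, coeff_X_pow] at h1
  rw [Finset.sum_eq_single c] at h1
  · rw [if_pos rfl, mul_one, div_eq_zero_iff] at h1
    rcases h1 with h1 | h1
    · exact h1
    · exact absurd (by exact_mod_cast h1) (Nat.factorial_ne_zero (col N m c + m))
  · intro d _ hd
    rw [if_neg, mul_zero]
    intro h
    apply hd
    apply col_inj N m
    omega
  · intro h
    exact absurd (Finset.mem_univ c) h

/-- The solution of the system. -/
noncomputable def ck (k : ℕ) : Fin N × Fin (m + 1) → ℂ := ((Gk N m k)⁻¹).mulVec (bk N m k)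

lemma ck_tendsto : Tendsto (ck N m) atTop (𝓝 (((G N m)⁻¹).mulVec (b N m))) :=
  mulVec_tendsto (inv_tendsto (Gk_tendsto N m) (det_G N m)) (bk_tendsto N m)

lemma ck_solves : ∀ᶠ k in atTop, (Gk N m k).mulVec (ck N m k) = bk N m k :=
  solve (Gk_tendsto N m) (det_G N m) (bk N m)

end algebra

section operator

variable {X : Type} [NormedAddCommGroup X] [NormedSpace ℂ X] (T : X →L[ℂ] X) (y : X)

/-- The binomial theorem for `(1 + T) ^ n` on the orbit of a vector killed by `T ^ R`. -/
lemma binom {R : ℕ} (hR : (T ^ R) y = 0) (n p : ℕ) :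
    ((1 + T) ^ n) ((T ^ p) y) =
      ∑ q ∈ Finset.range R, (if p ≤ q then ((n.choose (q - p) : ℕ) : ℂ) else 0) • (T ^ q) y := by
  have hz : ∀ q, R ≤ q → (T ^ q) y = 0 := by
    intro q hq
    rw [← Nat.sub_add_cancel hq, pow_add, mul_apply_eq_comp, hR, map_zero]
  have h1 : ((1 + T) ^ n) = ∑ i ∈ Finset.range (n + 1), (n.choose i : ℕ) • T ^ i := by
    rw [(Commute.one_left T).add_pow']
    rw [Finset.Nat.sum_antidiagonal_eq_sum_range_succ_mk]
    rw [← Finset.sum_range_reflect]
    refine Finset.sum_congr rfl fun i hi => ?_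
    rw [Finset.mem_range] at hi
    have h2 : n + 1 - 1 - i = n - i := by omega
    have h3 : n - (n - i) = i := by omega
    rw [h2, h3, one_pow, one_mul, Nat.choose_symm (by omega)]
  have h2 : ((1 + T) ^ n) ((T ^ p) y) =
      ∑ i ∈ Finset.range (n + 1), ((n.choose i : ℕ) : ℂ) • (T ^ (p + i)) y := by
    rw [h1, sum_apply]
    refine Finset.sum_congr rfl fun i _ => ?_
    rw [smul_apply, ← mul_apply_eq_comp, ← pow_add, add_comm i p,
      Nat.cast_smul_eq_nsmul]
  have h3 : ∀ B : ℕ, n + 1 + p + R ≤ B →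
      ∑ q ∈ Finset.range B, (if p ≤ q then ((n.choose (q - p) : ℕ) : ℂ) else 0) • (T ^ q) y =
      ∑ i ∈ Finset.range (n + 1), ((n.choose i : ℕ) : ℂ) • (T ^ (p + i)) y := by
    intro B hB
    have h4 : ∑ i ∈ Finset.range (n + 1), ((n.choose i : ℕ) : ℂ) • (T ^ (p + i)) y =
        ∑ q ∈ Finset.Ico p (p + (n + 1)),
          (if p ≤ q then ((n.choose (q - p) : ℕ) : ℂ) else 0) • (T ^ q) y := by
      rw [Finset.sum_Ico_eq_sum_range]
      have : p + (n + 1) - p = n + 1 := by omega
      rw [this]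
      refine Finset.sum_congr rfl fun i _ => ?_
      rw [if_pos (Nat.le_add_right _ _), Nat.add_sub_cancel_left]
    rw [h4]
    symm
    apply Finset.sum_subset
    · intro q hq
      rw [Finset.mem_Ico] at hq
      rw [Finset.mem_range]
      omega
    · intro q _ hq
      rw [Finset.mem_Ico] at hq
      split_ifs with h5
      · rw [Nat.choose_eq_zero_of_lt (by omega), Nat.cast_zero, zero_smul]
      · rw [zero_smul]
  rw [h2, ← h3 (n + 1 + p + R) le_rfl]
  symm
  apply Finset.sum_subset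
  · intro q hq
    rw [Finset.mem_range] at hq ⊢
    omega
  · intro q _ hq
    rw [Finset.mem_range] at hq
    rw [hz q (by omega), smul_zero]

variable (N m : ℕ)

/-- The approximating vectors. -/
noncomputable def xk (k : ℕ) : X :=
  (T ^ (N * (m + 1))) y + ∑ c : Fin N × Fin (m + 1),
    (ck N m k c / (k : ℂ) ^ (col N m c)) • (T ^ (N * (m + 1) - col N m c)) y

/-- The coefficients of `(1 + T) ^ (j k) x_k`. -/
noncomputable def coeffs (j k q : ℕ) : ℂ :=
  (if N * (m + 1) ≤ q then (((j * k).choose (q - N * (m + 1)) : ℕ) : ℂ) else 0) +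
  ∑ c : Fin N × Fin (m + 1), (ck N m k c / (k : ℂ) ^ (col N m c)) *
    (if N * (m + 1) - col N m c ≤ q then
      (((j * k).choose (q - (N * (m + 1) - col N m c)) : ℕ) : ℂ) else 0)

lemma expand (hR : (T ^ (N * (m + 1) + (m + 1))) y = 0) (j k : ℕ) :
    ((1 + T) ^ (j * k)) (xk T y N m k) =
      ∑ q ∈ Finset.range (N * (m + 1) + (m + 1)), coeffs N m j k q • (T ^ q) y := by
  unfold xk coeffs
  rw [map_add, map_sum, binom T y hR]
  simp only [map_smul, binom T y hR, Finset.smul_sum, smul_smul]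
  rw [Finset.sum_comm, ← Finset.sum_add_distrib]
  refine Finset.sum_congr rfl fun q _ => ?_
  rw [add_smul, Finset.sum_smul]

lemma coeffs_high (j s : ℕ) (hj : 1 ≤ j) (hjN : j ≤ N) (hs : s ≤ m) :
    ∀ᶠ k in atTop, coeffs N m j k (N * (m + 1) + s) = if s = 0 then 1 else 0 := by
  filter_upwards [ck_solves N m, eventually_gt_atTop 0] with k hk hk0
  have hk1 : (k : ℂ) ≠ 0 := by exact_mod_cast hk0.ne'
  have h1 := congrFun hk (⟨j - 1, by omega⟩, ⟨s, by omega⟩)
  simp only [Matrix.mulVec, dotProduct, Gk, bk, Nat.sub_add_cancel hj] at h1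
  unfold coeffs
  rw [if_pos (Nat.le_add_right _ _), Nat.add_sub_cancel_left]
  have h2 : ∀ c : Fin N × Fin (m + 1),
      (ck N m k c / (k : ℂ) ^ (col N m c)) *
        (if N * (m + 1) - col N m c ≤ N * (m + 1) + s then
        (((j * k).choose (N * (m + 1) + s - (N * (m + 1) - col N m c)) : ℕ) : ℂ) else 0) =
      (k : ℂ) ^ s * ((((j * k).choose (col N m c + s) : ℕ) : ℂ) / (k : ℂ) ^ (col N m c + s) *
        ck N m k c) := by
    intro c
    have h3 := col_le N m c
    rw [if_pos (by omega), show N * (m + 1) + s - (N * (m + 1) - col N m c) = col N m c + s by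
      omega, pow_add]
    field_simp
  rw [Finset.sum_congr rfl fun c _ => h2 c, ← Finset.mul_sum, h1]
  field_simp
  ring

lemma coeffs_low (j q : ℕ) (hj : 1 ≤ j) (hq : q < N * (m + 1)) :
    Tendsto (fun k => coeffs N m j k q) atTop (𝓝 0) := by
  unfold coeffs
  simp only [if_neg (not_le.2 hq), zero_add]
  have key : ∀ c : Fin N × Fin (m + 1), Tendsto (fun k : ℕ =>
      (ck N m k c / (k : ℂ) ^ (col N m c)) * (if N * (m + 1) - col N m c ≤ q then
      (((j * k).choose (q - (N * (m + 1) - col N m c)) : ℕ) : ℂ) else 0)) atTop (𝓝 0) := by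
    intro c
    by_cases h : N * (m + 1) - col N m c ≤ q
    · simp only [if_pos h]
      set t := N * (m + 1) - q with ht
      have hc := col_le N m c
      set e := q - (N * (m + 1) - col N m c) with he
      have h1 : col N m c = e + t := by omega
      have ht0 : t ≠ 0 := by omega
      have h2 := tendsto_pi_nhds.1 (ck_tendsto N m) c
      have h3 := choose_tendsto j e hj
      have h4 : Tendsto (fun k : ℕ => ((k : ℂ) ^ t)⁻¹) atTop (𝓝 0) := by
        have h5 := (tendsto_inv_atTop_nhds_zero_nat (𝕜 := ℂ)).pow t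
        rw [zero_pow ht0] at h5
        simpa [inv_pow] using h5
      have h5 := (h2.mul h3).mul h4
      rw [mul_zero] at h5
      refine h5.congr fun k => ?_
      rw [h1, pow_add, div_eq_mul_inv, div_eq_mul_inv, mul_inv]
      ring
    · refine tendsto_const_nhds.congr fun k => ?_
      rw [if_neg h, mul_zero]
  have h0 := tendsto_finsetSum (Finset.univ : Finset (Fin N × Fin (m + 1))) fun c _ => key c
  rwa [Finset.sum_const_zero] at h0

lemma orbit_tendsto (hR : (T ^ (N * (m + 1) + (m + 1))) y = 0) (j : ℕ) (hj : 1 ≤ j)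
    (hjN : j ≤ N) :
    Tendsto (fun k => ((1 + T) ^ (j * k)) (xk T y N m k)) atTop
      (𝓝 ((T ^ (N * (m + 1))) y)) := by
  simp only [expand T y N m hR]
  have h1 : ∀ᶠ k in atTop, ∀ s ∈ Finset.range (m + 1),
      coeffs N m j k (N * (m + 1) + s) = if s = 0 then 1 else 0 := by
    rw [Filter.eventually_all_finset]
    intro s hs
    rw [Finset.mem_range] at hs
    exact coeffs_high N m j s hj hjN (by omega)
  have h2 : Tendsto (fun k => ∑ q ∈ Finset.range (N * (m + 1)), coeffs N m j k q • (T ^ q) y)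
      atTop (𝓝 (∑ q ∈ Finset.range (N * (m + 1)), (0 : ℂ) • (T ^ q) y)) := by
    refine tendsto_finsetSum _ fun q hq => ?_
    rw [Finset.mem_range] at hq
    exact (coeffs_low N m j q hj hq).smul_const _
  simp only [zero_smul, Finset.sum_const_zero] at h2
  have h3 := h2.add_const ((T ^ (N * (m + 1))) y)
  rw [zero_add] at h3
  refine h3.congr' ?_
  filter_upwards [h1] with k hk
  rw [Finset.sum_range_add]
  congr 1
  rw [Finset.sum_congr rfl (g := fun s => (if s = 0 then (1 : ℂ) else 0) •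
    (T ^ (N * (m + 1) + s)) y) (fun s hs => by rw [hk s hs])]
  simp only [ite_smul, one_smul, zero_smul]
  rw [Finset.sum_ite_eq' (Finset.range (m + 1)) 0 (fun s => (T ^ (N * (m + 1) + s)) y)]
  simp

lemma xk_tendsto : Tendsto (fun k => xk T y N m k) atTop (𝓝 ((T ^ (N * (m + 1))) y)) := by
  unfold xk
  have h1 : Tendsto (fun k => ∑ c : Fin N × Fin (m + 1),
      (ck N m k c / (k : ℂ) ^ (col N m c)) • (T ^ (N * (m + 1) - col N m c)) y) atTop
      (𝓝 (∑ c : Fin N × Fin (m + 1), (0 : ℂ) • (T ^ (N * (m + 1) - col N m c)) y)) := by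
    refine tendsto_finsetSum _ fun c _ => ?_
    have h2 := tendsto_pi_nhds.1 (ck_tendsto N m) c
    have h4 : Tendsto (fun k : ℕ => ((k : ℂ) ^ (col N m c))⁻¹) atTop (𝓝 0) := by
      have h5 := (tendsto_inv_atTop_nhds_zero_nat (𝕜 := ℂ)).pow (col N m c)
      rw [zero_pow (by have := col_pos N m c; omega)] at h5
      simpa [inv_pow] using h5
    have h5 := h2.mul h4
    rw [mul_zero] at h5
    refine Tendsto.smul_const ?_ _
    refine h5.congr fun k => ?_
    rw [div_eq_mul_inv]
  simp only [zero_smul, Finset.sum_const_zero] at h1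
  have h2 := h1.const_add ((T ^ (N * (m + 1))) y)
  rwa [add_zero] at h2

/-- The general theorem: if the vectors which are killed by some power of `T` and belong to the
range of every power of `T` are dense then `1 + T` is topologically multiply recurrent. -/
theorem main (h : Dense {x : X | (∃ m : ℕ, (T ^ m) x = 0) ∧ ∀ M : ℕ, ∃ y, (T ^ M) y = x}) :
    MultiplyRecurrent (1 + T) := by
  intro U hU hne N hN
  obtain ⟨x₀, hx₀, ⟨m, hm⟩, hM⟩ := h.inter_open_nonempty U hU hne
  obtain ⟨y, hy⟩ := hM (N * (m + 1))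
  have hR : (T ^ (N * (m + 1) + (m + 1))) y = 0 := by
    rw [add_comm, pow_add, mul_apply_eq_comp, hy, pow_succ', mul_apply_eq_comp, hm, map_zero]
  have hU' : U ∈ 𝓝 ((T ^ (N * (m + 1))) y) := by rw [hy]; exact hU.mem_nhds hx₀
  have h1 : ∀ᶠ k in atTop, ∀ j ∈ Finset.Icc 1 N, ((1 + T) ^ (j * k)) (xk T y N m k) ∈ U := by
    rw [Filter.eventually_all_finset]
    intro j hj
    rw [Finset.mem_Icc] at hj
    exact (orbit_tendsto T y N m hR j hj.1 hj.2).eventually_mem hU'
  have h2 := (xk_tendsto T y N m).eventually_mem hU'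
  obtain ⟨k, hk1, hk2, hk3⟩ := (h1.and (h2.and (eventually_ge_atTop 1))).exists
  exact ⟨k, hk3, xk T y N m k, hk2, fun j hj1 hj2 => hk1 j (Finset.mem_Icc.2 ⟨hj1, hj2⟩)⟩

end operator

/-- Weighted shifts along any sequence with dense linear span. -/
theorem shift_general {X : Type} [NormedAddCommGroup X] [NormedSpace ℂ X] (e : ℕ → X)
    (he : Dense ((Submodule.span ℂ (Set.range e) : Submodule ℂ X) : Set X)) (w : ℕ → ℂ)
    (hw : ∀ n, w n ≠ 0) (T : X →L[ℂ] X) (h0 : T (e 0) = 0)
    (h1 : ∀ n : ℕ, 1 ≤ n → T (e n) = w n • e (n - 1)) :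
    MultiplyRecurrent (1 + T) := by
  apply main
  -- finite combinations of the basis
  have hE : ∀ x ∈ Submodule.span ℂ (Set.range e), ∃ m : ℕ, (T ^ m) x = 0 := by
    intro x hx
    induction hx using Submodule.span_induction with
    | mem x hx =>
      obtain ⟨n, rfl⟩ := hx
      induction n with
      | zero => exact ⟨1, by simpa using h0⟩
      | succ n ih =>
        obtain ⟨m, hm⟩ := ih
        refine ⟨m + 1, ?_⟩
        rw [pow_succ, mul_apply_eq_comp, h1 (n + 1) (by omega), map_smul,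
          Nat.add_sub_cancel, hm, smul_zero]
    | zero => exact ⟨0, by simp⟩
    | add x y _ _ hx hy =>
      obtain ⟨a, ha⟩ := hx
      obtain ⟨b, hb⟩ := hy
      refine ⟨a + b, ?_⟩
      rw [map_add]
      nth_rewrite 1 [add_comm a b]
      rw [pow_add, mul_apply_eq_comp, ha, map_zero, pow_add, mul_apply_eq_comp, hb, map_zero,
        add_zero]
    | smul c x _ hx =>
      obtain ⟨a, ha⟩ := hx
      exact ⟨a, by rw [map_smul, ha, smul_zero]⟩
  have hF : ∀ x ∈ Submodule.span ℂ (Set.range e), ∃ y ∈ Submodule.span ℂ (Set.range e),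
      T y = x := by
    intro x hx
    induction hx using Submodule.span_induction with
    | mem x hx =>
      obtain ⟨n, rfl⟩ := hx
      refine ⟨(w (n + 1))⁻¹ • e (n + 1),
        Submodule.smul_mem _ _ (Submodule.subset_span ⟨n + 1, rfl⟩), ?_⟩
      rw [map_smul, h1 (n + 1) (by omega), Nat.add_sub_cancel, smul_smul,
        inv_mul_cancel₀ (hw _), one_smul]
    | zero => exact ⟨0, Submodule.zero_mem _, map_zero _⟩
    | add x y _ _ hx hy =>
      obtain ⟨a, ha, ha'⟩ := hx
      obtain ⟨b, hb, hb'⟩ := hy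
      exact ⟨a + b, Submodule.add_mem _ ha hb, by rw [map_add, ha', hb']⟩
    | smul c x _ hx =>
      obtain ⟨a, ha, ha'⟩ := hx
      exact ⟨c • a, Submodule.smul_mem _ _ ha, by rw [map_smul, ha']⟩
  have hF' : ∀ (M : ℕ), ∀ x ∈ Submodule.span ℂ (Set.range e),
      ∃ y ∈ Submodule.span ℂ (Set.range e), (T ^ M) y = x := by
    intro M
    induction M with
    | zero => intro x hx; exact ⟨x, hx, by simp⟩
    | succ M ih =>
      intro x hx
      obtain ⟨y, hy, hyx⟩ := hF x hx
      obtain ⟨v, hv, hvy⟩ := ih y hy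
      exact ⟨v, hv, by rw [pow_succ', mul_apply_eq_comp, hvy, hyx]⟩
  refine he.mono fun x hx => ⟨hE x hx, fun M => ?_⟩
  obtain ⟨y, -, hy⟩ := hF' M x hx
  exact ⟨y, hy⟩

/-- For every unilateral weighted shift `T` with positive weights (with respect to an orthonormal
basis `(e_n)`, `n = 0, 1, 2, …`, of a complex Hilbert space, for instance the canonical basis of
`ℓ² (ℕ)`) the operator `I + T` is topologically multiply recurrent. -/
theorem result (H : Type) [NormedAddCommGroup H] [InnerProductSpace ℂ H]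
    (e : HilbertBasis ℕ ℂ H) (w : ℕ → ℝ) (hw : ∀ n, 0 < w n) (T : H →L[ℂ] H)
    (hT : IsWeightedShift e w T) :
    MultiplyRecurrent (ContinuousLinearMap.id ℂ H + T) := by
  refine shift_general (fun n => e n) ?_ (fun n => (w n : ℂ)) (fun n => ?_) T hT.1 hT.2
  · have := e.dense_span
    rw [Submodule.dense_iff_topologicalClosure_eq_top]
    exact this
  · exact_mod_cast (hw n).ne'

end Pool.Agent.Results.MP_a8995d_an.IdentityPlusShift
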